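import Pool.Agent.TH806.N4.Defs

set_option autoImplicit false

/-! Fourier coefficients of `|1 - r e(θ)|^{-4}`. -/

namespace Pool.Agent.TH971.N4_W2

open Finset Filter Topology MeasureTheory Complex MonoidAlgebra
open Pool.Agent.W184.NZ Pool.Agent.TH806 Pool.Agent.TH806.N4

noncomputable section

/-- bounded solutions of the homogeneous recurrence vanish -/
lemma rec_zero {r : ℝ} (h0 : 0 ≤ r) (h1 : r < 1) (D : ℤ → ℂ) (M : ℝ) (hM : ∀ m, ‖D m‖ ≤ M)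
    (h : ∀ m, ((1 + r ^ 2 : ℝ) : ℂ) * D m = (r : ℂ) * (D (m + 1) + D (m - 1))) (m : ℤ) : D m = 0 := by
  have hq : 0 < 1 + r ^ 2 := by positivity
  set ρ : ℝ := 2 * r / (1 + r ^ 2) with hρ
  have hρ0 : 0 ≤ ρ := by positivity
  have hρ1 : ρ < 1 := by
    rw [hρ, div_lt_one hq]
    nlinarith [mul_pos (sub_pos.mpr h1) (sub_pos.mpr h1)]
  have key : ∀ n : ℕ, ∀ m, ‖D m‖ ≤ ρ ^ n * M := by
    intro n
    induction n with
    | zero => intro m; simpa using hM m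
    | succ n ih =>
      intro m
      have h2 : (1 + r ^ 2) * ‖D m‖ ≤ r * (‖D (m + 1)‖ + ‖D (m - 1)‖) := by
        have h3 := congrArg norm (h m)
        rw [norm_mul, norm_mul, Complex.norm_real, Complex.norm_real, Real.norm_of_nonneg h0,
          Real.norm_of_nonneg hq.le] at h3
        rw [h3]
        exact mul_le_mul_of_nonneg_left (norm_add_le _ _) h0
      have h4 := ih (m + 1)
      have h5 := ih (m - 1)
      have h6 : (1 + r ^ 2) * ‖D m‖ ≤ (2 * r) * (ρ ^ n * M) := by nlinarith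
      have h7 : (2 * r) = (1 + r ^ 2) * ρ := by rw [hρ]; field_simp
      rw [h7, mul_assoc] at h6
      have h8 := le_of_mul_le_mul_left h6 hq
      rw [pow_succ]
      calc ‖D m‖ ≤ ρ * (ρ ^ n * M) := h8
        _ = _ := by ring
  have hlim : Tendsto (fun n : ℕ => ρ ^ n * M) atTop (𝓝 (0 * M)) :=
    (tendsto_pow_atTop_nhds_zero_of_lt_one hρ0 hρ1).mul_const M
  rw [zero_mul] at hlim
  have h9 : ‖D m‖ ≤ 0 := ge_of_tendsto' hlim fun n => key n m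
  exact norm_le_zero_iff.mp h9

/-- the square of the modulus -/
lemma nsq (r x : ℝ) : ((‖(1 - (r : ℂ) * ec x)‖ ^ 2 : ℝ) : ℂ) = (1 - (r:ℂ) * ec x) * (1 - (r:ℂ) * ec (-x)) := by
  rw [← ec_conj]
  have h : (1 - (r:ℂ) * starRingEnd ℂ (ec x)) = starRingEnd ℂ (1 - (r:ℂ) * ec x) := by
    rw [map_sub, map_one, map_mul, Complex.conj_ofReal]
  rw [h, Complex.mul_conj, Complex.normSq_eq_norm_sq]

lemma nsq' (r x : ℝ) : ((‖(1 - (r : ℂ) * ec x)‖ ^ 2 : ℝ) : ℂ) = ((1 + r ^ 2 : ℝ) : ℂ) - (r:ℂ) * (ec x + ec (-x)) := by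
  rw [nsq]
  have h3 : ec x * ec (-x) = 1 := by rw [← ec_add]; simp [ec_zero]
  push_cast
  linear_combination (r:ℂ) ^ 2 * h3

lemma npos {r : ℝ} (h0 : 0 ≤ r) (h1 : r < 1) (x : ℝ) : 1 - r ≤ ‖(1 - (r : ℂ) * ec x)‖ := by
  have h := one_sub_ge (a := (r:ℂ)) (ec_norm x)
  rwa [Complex.norm_real, Real.norm_of_nonneg h0] at h

/-- the density -/
def qd (r x : ℝ) : ℝ := ‖(1 - (r : ℂ) * ec x)⁻¹‖ ^ 4

lemma qd_eq (r x : ℝ) : qd r x = ((‖(1 - (r : ℂ) * ec x)‖ ^ 2)⁻¹) ^ 2 := by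
  unfold qd
  rw [norm_inv]
  field_simp

lemma n_cont (r : ℝ) : Continuous fun x => ‖(1 - (r : ℂ) * ec x)‖ := by
  have := ec_cont
  fun_prop

lemma qd_cont {r : ℝ} (h0 : 0 ≤ r) (h1 : r < 1) : Continuous (qd r) := by
  have h2 : Continuous fun x => (1 - (r : ℂ) * ec x)⁻¹ := by
    have := geo_cont (a := (r:ℂ)) (by rw [Complex.norm_real, Real.norm_of_nonneg h0]; exact h1) continuous_id
    simpa using this
  unfold qd
  fun_prop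

lemma qd_nonneg (r x : ℝ) : 0 ≤ qd r x := by unfold qd; positivity

lemma qd_le {r : ℝ} (h0 : 0 ≤ r) (h1 : r < 1) (x : ℝ) : qd r x ≤ ((1 - r)⁻¹) ^ 4 := by
  unfold qd
  have h2 : 0 < 1 - r := by linarith
  rw [norm_inv]
  exact pow_le_pow_left₀ (by positivity) (inv_anti₀ h2 (npos h0 h1 x)) 4

/-- the Fourier coefficient -/
def Aq (r : ℝ) (m : ℤ) : ℂ := ∫ θ, ec (m * θ) * ((qd r θ : ℝ) : ℂ) ∂uu

lemma Aq_int {r : ℝ} (h0 : 0 ≤ r) (h1 : r < 1) (m : ℤ) :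
    Integrable (fun θ : ℝ => ec (m * θ) * ((qd r θ : ℝ) : ℂ)) uu := by
  refine integrable_uu (B := ((1 - r)⁻¹) ^ 4) ?_ fun x => ?_
  · have := ec_cont
    have := qd_cont h0 h1
    fun_prop
  · rw [norm_mul, ec_norm, one_mul, Complex.norm_real, Real.norm_of_nonneg (qd_nonneg r x)]
    exact qd_le h0 h1 x

lemma Aq_bd {r : ℝ} (h0 : 0 ≤ r) (h1 : r < 1) (m : ℤ) : ‖Aq r m‖ ≤ ((1 - r)⁻¹) ^ 4 := by
  unfold Aq
  have h := norm_integral_le_of_norm_le_const (μ := uu) (f := fun θ : ℝ => ec (m * θ) * ((qd r θ : ℝ) : ℂ))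
    (C := ((1 - r)⁻¹) ^ 4) (Filter.Eventually.of_forall fun x => by
      rw [norm_mul, ec_norm, one_mul, Complex.norm_real, Real.norm_of_nonneg (qd_nonneg r x)]
      exact qd_le h0 h1 x)
  simpa using h

lemma Aq_rec {r : ℝ} (h0 : 0 ≤ r) (h1 : r < 1) (m : ℤ) :
    ((1 + r ^ 2 : ℝ) : ℂ) * Aq r m - (r : ℂ) * (Aq r (m + 1) + Aq r (m - 1)) =
      ((r ^ m.natAbs / (1 - r ^ 2) : ℝ) : ℂ) := by
  have hr : ‖(r:ℂ)‖ < 1 := by rw [Complex.norm_real, Real.norm_of_nonneg h0]; exact h1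
  have hr2 : (1:ℝ) - r ^ 2 ≠ 0 := by nlinarith
  have h2 := int_Pk hr m
  unfold Aq
  have j1 : Integrable (fun θ : ℝ => ((1 + r ^ 2 : ℝ) : ℂ) * (ec (m * θ) * ((qd r θ : ℝ) : ℂ))) uu :=
    (Aq_int h0 h1 _).const_mul _
  have j2 : Integrable (fun θ : ℝ => (r:ℂ) * (ec (((m + 1 : ℤ) : ℝ) * θ) * ((qd r θ : ℝ) : ℂ) +
      ec (((m - 1 : ℤ) : ℝ) * θ) * ((qd r θ : ℝ) : ℂ))) uu :=
    ((Aq_int h0 h1 _).add (Aq_int h0 h1 _)).const_mul _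
  rw [← integral_add (Aq_int h0 h1 _) (Aq_int h0 h1 _), ← integral_const_mul, ← integral_const_mul,
    ← integral_sub j1 j2]
  have h3 : ∀ θ : ℝ, ((1 + r ^ 2 : ℝ) : ℂ) * (ec (m * θ) * ((qd r θ : ℝ) : ℂ)) -
      (r:ℂ) * (ec (((m + 1 : ℤ) : ℝ) * θ) * ((qd r θ : ℝ) : ℂ) + ec (((m - 1 : ℤ) : ℝ) * θ) * ((qd r θ : ℝ) : ℂ)) =
      ec (m * θ) * Pk r θ * ((1 / (1 - r ^ 2) : ℝ) : ℂ) := by
    intro θ
    have e1 : ((m + 1 : ℤ) : ℝ) * θ = m * θ + θ := by push_cast; ring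
    have e2 : ((m - 1 : ℤ) : ℝ) * θ = m * θ + (-θ) := by push_cast; ring
    rw [e1, e2, ec_add, ec_add]
    have e3 := nsq' r θ
    have e4 := nsq r θ
    have hn : 0 < ‖(1 - (r : ℂ) * ec θ)‖ := by have := npos h0 h1 θ; linarith
    have hnc : ((‖(1 - (r : ℂ) * ec θ)‖ ^ 2 : ℝ) : ℂ) ≠ 0 := by
      rw [Complex.ofReal_ne_zero]; positivity
    have e5 : Pk r θ = ((1 - r ^ 2 : ℝ) : ℂ) * (((‖(1 - (r : ℂ) * ec θ)‖ ^ 2 : ℝ) : ℂ))⁻¹ := by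
      unfold Pk
      rw [e4]; push_cast; rw [div_eq_mul_inv]
    have e6 : ((qd r θ : ℝ) : ℂ) = ((((‖(1 - (r : ℂ) * ec θ)‖ ^ 2 : ℝ) : ℂ))⁻¹) ^ 2 := by
      rw [qd_eq]; push_cast; ring
    rw [e5, e6]
    have hr2c : ((1 - r ^ 2 : ℝ) : ℂ) ≠ 0 := by rw [Complex.ofReal_ne_zero]; exact hr2
    have e7 : ((1 / (1 - r ^ 2) : ℝ) : ℂ) = (((1 - r ^ 2 : ℝ) : ℂ))⁻¹ := by push_cast; rw [one_div]
    rw [e7]
    set N : ℂ := ((‖(1 - (r : ℂ) * ec θ)‖ ^ 2 : ℝ) : ℂ) with hN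
    have e8 : ((1 + r ^ 2 : ℝ) : ℂ) * (ec (m * θ) * (N⁻¹) ^ 2) -
      (r:ℂ) * (ec (m * θ) * ec θ * (N⁻¹) ^ 2 + ec (m * θ) * ec (-θ) * (N⁻¹) ^ 2) =
      ec (m * θ) * (N⁻¹) ^ 2 * (((1 + r ^ 2 : ℝ) : ℂ) - (r:ℂ) * (ec θ + ec (-θ))) := by ring
    rw [e8, ← e3]
    field_simp
  simp_rw [h3]
  rw [integral_mul_const, h2]
  push_cast
  ring

/-- the closed form -/
def Bq (r : ℝ) (m : ℤ) : ℝ :=
  r ^ m.natAbs * ((1 + r ^ 2) + (m.natAbs : ℝ) * (1 - r ^ 2)) / (1 - r ^ 2) ^ 3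

lemma Bq_rec {r : ℝ} (h0 : 0 ≤ r) (h1 : r < 1) (m : ℤ) :
    (1 + r ^ 2) * Bq r m - r * (Bq r (m + 1) + Bq r (m - 1)) = r ^ m.natAbs / (1 - r ^ 2) := by
  have hr2 : (1:ℝ) - r ^ 2 ≠ 0 := by nlinarith
  have key : ∀ n : ℕ, (1 + r ^ 2) * (r ^ (n + 1) * ((1 + r ^ 2) + ((n + 1 : ℕ) : ℝ) * (1 - r ^ 2)) / (1 - r ^ 2) ^ 3) -
      r * (r ^ (n + 2) * ((1 + r ^ 2) + ((n + 2 : ℕ) : ℝ) * (1 - r ^ 2)) / (1 - r ^ 2) ^ 3 +
      r ^ n * ((1 + r ^ 2) + (n : ℝ) * (1 - r ^ 2)) / (1 - r ^ 2) ^ 3) = r ^ (n + 1) / (1 - r ^ 2) := by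
    intro n
    push_cast
    field_simp
    ring
  unfold Bq
  rcases Int.lt_trichotomy m 0 with h | h | h
  · obtain ⟨n, hn⟩ : ∃ n : ℕ, m = -((n:ℤ) + 1) := ⟨(-m - 1).toNat, by omega⟩
    have e1 : m.natAbs = n + 1 := by omega
    have e2 : (m + 1).natAbs = n := by omega
    have e3 : (m - 1).natAbs = n + 2 := by omega
    rw [e1, e2, e3]
    have := key n
    linarith
  · subst h
    have e1 : (0:ℤ).natAbs = 0 := rfl
    have e2 : ((0:ℤ) + 1).natAbs = 1 := rfl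
    have e3 : ((0:ℤ) - 1).natAbs = 1 := rfl
    rw [e1, e2, e3]
    push_cast
    field_simp
    ring
  · obtain ⟨n, hn⟩ : ∃ n : ℕ, m = (n:ℤ) + 1 := ⟨(m - 1).toNat, by omega⟩
    have e1 : m.natAbs = n + 1 := by omega
    have e2 : (m + 1).natAbs = n + 2 := by omega
    have e3 : (m - 1).natAbs = n := by omega
    rw [e1, e2, e3]
    exact key n

lemma npow_le {r : ℝ} (h0 : 0 ≤ r) (h1 : r < 1) (n : ℕ) : (n:ℝ) * r ^ n ≤ (1 - r)⁻¹ := by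
  have h2 : (n:ℝ) * r ^ n ≤ ∑ j ∈ range n, r ^ j := by
    have : ∑ j ∈ range n, r ^ n ≤ ∑ j ∈ range n, r ^ j :=
      sum_le_sum fun j hj => pow_le_pow_of_le_one h0 h1.le (mem_range.mp hj).le
    simpa using this
  refine h2.trans ?_
  have h3 := (summable_geometric_of_lt_one h0 h1).sum_le_tsum (range n) (fun i _ => by positivity)
  rwa [tsum_geometric_of_lt_one h0 h1] at h3

lemma Bq_bd {r : ℝ} (h0 : 0 ≤ r) (h1 : r < 1) (m : ℤ) :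
    ‖((Bq r m : ℝ) : ℂ)‖ ≤ (2 + (1 - r)⁻¹) / (1 - r ^ 2) ^ 3 := by
  have hr2 : 0 < (1:ℝ) - r ^ 2 := by nlinarith
  rw [Complex.norm_real]
  have hB : 0 ≤ Bq r m := by unfold Bq; positivity
  rw [Real.norm_of_nonneg hB]
  unfold Bq
  refine div_le_div_of_nonneg_right ?_ (by positivity)
  have h2 := npow_le h0 h1 m.natAbs
  have h3 : r ^ m.natAbs ≤ 1 := pow_le_one₀ h0 h1.le
  have h4 : 0 ≤ r ^ m.natAbs := by positivity
  have h5 : r ^ 2 ≤ 1 := by nlinarith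
  have h6 : 0 ≤ (m.natAbs : ℝ) * r ^ m.natAbs := by positivity
  have h7 : 0 ≤ (1 - r)⁻¹ := by
    have : 0 < 1 - r := by linarith
    positivity
  calc r ^ m.natAbs * ((1 + r ^ 2) + (m.natAbs : ℝ) * (1 - r ^ 2)) =
      r ^ m.natAbs * (1 + r ^ 2) + ((m.natAbs : ℝ) * r ^ m.natAbs) * (1 - r ^ 2) := by ring
    _ ≤ 1 * 2 + (1 - r)⁻¹ * 1 := by
        refine add_le_add ?_ ?_
        · exact mul_le_mul h3 (by linarith) (by positivity) zero_le_one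
        · exact mul_le_mul h2 (by nlinarith) (by linarith) h7
    _ = _ := by ring

theorem Aq_eq {r : ℝ} (h0 : 0 ≤ r) (h1 : r < 1) (m : ℤ) : Aq r m = ((Bq r m : ℝ) : ℂ) := by
  have h := rec_zero h0 h1 (fun m => Aq r m - ((Bq r m : ℝ) : ℂ))
    (((1 - r)⁻¹) ^ 4 + (2 + (1 - r)⁻¹) / (1 - r ^ 2) ^ 3)
    (fun m => (norm_sub_le _ _).trans (add_le_add (Aq_bd h0 h1 m) (Bq_bd h0 h1 m)))
    (fun m => by
      have h2 := Aq_rec h0 h1 m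
      have h3 : (((1 + r ^ 2) * Bq r m - r * (Bq r (m + 1) + Bq r (m - 1)) : ℝ) : ℂ) =
        ((r ^ m.natAbs / (1 - r ^ 2) : ℝ) : ℂ) := congrArg (fun x : ℝ => (x:ℂ)) (Bq_rec h0 h1 m)
      rw [← h3] at h2
      push_cast at h2 ⊢
      linear_combination h2) m
  exact sub_eq_zero.mp h

theorem t_D4 : P_D4 := by
  intro r h0 h1 m
  exact Aq_eq h0 h1 m

end

end Pool.Agent.TH971.N4_W2
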