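import Pool.Agent.TH971.N4W2.D4

set_option autoImplicit false

/-! The weight `w2` and the law of one prime. -/

namespace Pool.Agent.TH971.N4_W2

open Finset Filter Topology MeasureTheory Complex MonoidAlgebra
open Pool.Agent.W184.NZ Pool.Agent.TH806 Pool.Agent.TH806.N4

noncomputable section

lemma w2_mul {x y : ℕ × ℕ} (h11 : Nat.Coprime x.1 y.1) (h12 : Nat.Coprime x.1 y.2) (h21 : Nat.Coprime x.2 y.1)
    (h22 : Nat.Coprime x.2 y.2) (hx1 : x.1 ≠ 0) (hx2 : x.2 ≠ 0) (hy1 : y.1 ≠ 0) (hy2 : y.2 ≠ 0) :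
    w2 (x * y) = w2 x * w2 y := by
  have hc : Nat.Coprime (x.1 * x.2) (y.1 * y.2) :=
    Nat.Coprime.mul_left (Nat.Coprime.mul_right h11 h12) (Nat.Coprime.mul_right h21 h22)
  unfold w2
  rw [w1_mul h12 h21 h22]
  simp only [Prod.fst_mul, Prod.snd_mul]
  have e : x.1 * y.1 * (x.2 * y.2) = (x.1 * x.2) * (y.1 * y.2) := by ring
  rw [e, Nat.primeFactors_mul (mul_ne_zero hx1 hx2) (mul_ne_zero hy1 hy2),
    prod_union hc.disjoint_primeFactors]
  have e1 : ∏ p ∈ (x.1 * x.2).primeFactors, q4 p (((x.1 * y.1).factorization p : ℤ) - (x.2 * y.2).factorization p) =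
      ∏ p ∈ (x.1 * x.2).primeFactors, q4 p ((x.1.factorization p : ℤ) - x.2.factorization p) := by
    refine prod_congr rfl fun p hp => ?_
    have hp' := hc.disjoint_primeFactors
    have hpy : p ∉ (y.1 * y.2).primeFactors := Finset.disjoint_left.mp hp' hp
    have hpp := Nat.prime_of_mem_primeFactors hp
    have hd : ¬ p ∣ y.1 * y.2 := fun hd => hpy (Nat.mem_primeFactors.mpr ⟨hpp, hd, mul_ne_zero hy1 hy2⟩)
    have z1 : y.1.factorization p = 0 := Nat.factorization_eq_zero_of_not_dvd fun h => hd (h.mul_right _)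
    have z2 : y.2.factorization p = 0 := Nat.factorization_eq_zero_of_not_dvd fun h => hd (h.mul_left _)
    rw [Nat.factorization_mul hx1 hy1, Nat.factorization_mul hx2 hy2, Finsupp.add_apply, Finsupp.add_apply,
      z1, z2, add_zero, add_zero]
  have e2 : ∏ p ∈ (y.1 * y.2).primeFactors, q4 p (((x.1 * y.1).factorization p : ℤ) - (x.2 * y.2).factorization p) =
      ∏ p ∈ (y.1 * y.2).primeFactors, q4 p ((y.1.factorization p : ℤ) - y.2.factorization p) := by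
    refine prod_congr rfl fun p hp => ?_
    have hp' := hc.disjoint_primeFactors
    have hpy : p ∉ (x.1 * x.2).primeFactors := fun h => Finset.disjoint_left.mp hp' h hp
    have hpp := Nat.prime_of_mem_primeFactors hp
    have hd : ¬ p ∣ x.1 * x.2 := fun hd => hpy (Nat.mem_primeFactors.mpr ⟨hpp, hd, mul_ne_zero hx1 hx2⟩)
    have z1 : x.1.factorization p = 0 := Nat.factorization_eq_zero_of_not_dvd fun h => hd (h.mul_right _)
    have z2 : x.2.factorization p = 0 := Nat.factorization_eq_zero_of_not_dvd fun h => hd (h.mul_left _)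
    rw [Nat.factorization_mul hx1 hy1, Nat.factorization_mul hx2 hy2, Finsupp.add_apply, Finsupp.add_apply,
      z1, z2, zero_add, zero_add]
  rw [e1, e2]
  ring

lemma lam2_mul {I J : Finset ℕ} (hIJ : Disjoint I J) {f g : DA} (hf : f ∈ SA (MI I)) (hg : g ∈ SA (MI J)) :
    lam w2 (f * g) = lam w2 f * lam w2 g := by
  refine lam_mul fun x hx y hy => ?_
  have h := MI_coprime hIJ (hf x hx) (hg y hy)
  exact w2_mul h.1 h.2.1 h.2.2.1 h.2.2.2 (hf x hx).1 (hf x hx).2.1 (hg y hy).1 (hg y hy).2.1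

lemma w2_one : w2 (1, 1) = 1 := by
  unfold w2 w1
  simp

lemma lam2_one : lam w2 1 = 1 := by
  rw [MonoidAlgebra.one_def, lam_single, one_mul]
  exact w2_one

lemma q4_zero (p : ℕ) : q4 p 0 = 1 := by unfold q4; simp

lemma w2_loc {p : ℕ} (hp : p.Prime) (k l : ℕ) :
    w2 (p ^ k, p ^ l) = (1 / (p:ℝ)) ^ (max k l) * q4 p ((k:ℤ) - l) := by
  have h1 := goodW1.loc p hp k l
  unfold w2
  rw [h1, ← pow_add]
  have e1 : min k l + (max k l - min k l) = max k l := by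
    have := min_le_max (a := k) (b := l)
    omega
  rw [e1]
  congr 1
  simp only
  rw [← pow_add]
  rcases Nat.eq_zero_or_pos (k + l) with h | h
  · have hk : k = 0 := by omega
    have hl : l = 0 := by omega
    subst hk; subst hl
    simp [q4_zero]
  · rw [Nat.primeFactors_prime_pow h.ne' hp, prod_singleton]
    rw [hp.factorization_pow, hp.factorization_pow]
    simp

/-- exponential moment of one variable, upper bound -/
theorem one_exp {μ : Measure ℂ} [IsProbabilityMeasure μ] {r m1 m2 : ℝ} (hr : 0 < r)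
    (hn : ∀ᵐ z ∂μ, ‖z‖ = r) (hm1 : ∫ z, z ∂μ = (m1 : ℂ)) (hm2 : ∫ z, z ^ 2 ∂μ = (m2 : ℂ)) (hm20 : 0 ≤ m2)
    {c : ℂ} (hc : ‖c‖ * r ≤ 1) :
    ∫ z, Real.exp ((c * z).re) ∂μ ≤
      Real.exp (c.re * m1 + ‖c‖ ^ 2 * r ^ 2 / 4 + ‖c‖ ^ 2 * m2 / 4 + ‖c‖ ^ 3 * r ^ 3) := by
  have hB : ∀ᵐ z ∂μ, ‖z‖ ≤ r := hn.mono fun z hz => hz.le
  have i1 : Integrable (fun z : ℂ => Real.exp ((c * z).re)) μ := integrable_of_bdd hB (by fun_prop)
  have i2 : Integrable (fun z : ℂ => c * z) μ := integrable_of_bdd hB (by fun_prop)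
  have i3 : Integrable (fun z : ℂ => c ^ 2 * z ^ 2) μ := integrable_of_bdd hB (by fun_prop)
  have i2' : Integrable (fun z : ℂ => (c * z).re) μ := i2.re
  have i3' : Integrable (fun z : ℂ => (c ^ 2 * z ^ 2).re) μ := i3.re
  have e1 : ∫ z, (c * z).re ∂μ = c.re * m1 := by
    have h1 : ∫ z, (c * z).re ∂μ = (∫ z, c * z ∂μ).re := integral_re i2
    rw [h1, integral_const_mul, hm1, Complex.re_mul_ofReal]
  have e2 : ∫ z, (c ^ 2 * z ^ 2).re ∂μ = (c ^ 2).re * m2 := by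
    have h1 : ∫ z, (c ^ 2 * z ^ 2).re ∂μ = (∫ z, c ^ 2 * z ^ 2 ∂μ).re := integral_re i3
    rw [h1, integral_const_mul, hm2, Complex.re_mul_ofReal]
  have h3 : ∫ z, Real.exp ((c * z).re) ∂μ ≤
      ∫ z, (1 + (c * z).re + (‖c‖ ^ 2 * r ^ 2 + (c ^ 2 * z ^ 2).re) / 4 + ‖c‖ ^ 3 * r ^ 3) ∂μ := by
    refine integral_mono_ae i1 ?_ ?_
    · exact (((integrable_const _).add i2').add (((integrable_const _).add i3').div_const _)).add
        (integrable_const _)
    · filter_upwards [hn] with z hz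
      have h4 : |(c * z).re| ≤ ‖c‖ * r := by
        have := Complex.abs_re_le_norm (c * z)
        rwa [norm_mul, hz] at this
      have h5 := exp_cubic (h4.trans hc)
      have h6 : |(c * z).re| ^ 3 ≤ ‖c‖ ^ 3 * r ^ 3 := by
        rw [← mul_pow]
        exact pow_le_pow_left₀ (abs_nonneg _) h4 3
      have h7 : (c * z).re ^ 2 = (‖c‖ ^ 2 * r ^ 2 + (c ^ 2 * z ^ 2).re) / 2 := by
        have h8 : ‖c * z‖ ^ 2 = ‖c‖ ^ 2 * r ^ 2 := by rw [norm_mul, hz, mul_pow]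
        rw [← h8, ← mul_pow, Complex.sq_norm, Complex.normSq_apply, sq (c * z), Complex.mul_re (c * z)]
        ring
      have h9 : (c * z).re ^ 2 / 2 = (‖c‖ ^ 2 * r ^ 2 + (c ^ 2 * z ^ 2).re) / 4 := by rw [h7]; ring
      linarith
  have h4 : ∫ z, (1 + (c * z).re + (‖c‖ ^ 2 * r ^ 2 + (c ^ 2 * z ^ 2).re) / 4 + ‖c‖ ^ 3 * r ^ 3) ∂μ =
      1 + c.re * m1 + (‖c‖ ^ 2 * r ^ 2 + (c ^ 2).re * m2) / 4 + ‖c‖ ^ 3 * r ^ 3 := by
    have j1 : Integrable (fun z : ℂ => 1 + (c * z).re) μ := (integrable_const _).add i2'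
    have j2 : Integrable (fun z : ℂ => (‖c‖ ^ 2 * r ^ 2 + (c ^ 2 * z ^ 2).re) / 4) μ :=
      ((integrable_const _).add i3').div_const _
    have j3 : Integrable (fun z : ℂ => 1 + (c * z).re + (‖c‖ ^ 2 * r ^ 2 + (c ^ 2 * z ^ 2).re) / 4) μ :=
      j1.add j2
    rw [integral_add j3 (integrable_const _), integral_add j1 j2, integral_add (integrable_const _) i2',
      integral_div, integral_add (integrable_const _) i3', e1, e2]
    simp
  have h5 : (c ^ 2).re ≤ ‖c‖ ^ 2 := by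
    have := Complex.re_le_norm (c ^ 2)
    rwa [norm_pow] at this
  have h6 : (c ^ 2).re * m2 ≤ ‖c‖ ^ 2 * m2 :=
    mul_le_mul_of_nonneg_right h5 hm20
  rw [h4] at h3
  refine h3.trans ?_
  have h7 := Real.add_one_le_exp (c.re * m1 + ‖c‖ ^ 2 * r ^ 2 / 4 + ‖c‖ ^ 2 * m2 / 4 + ‖c‖ ^ 3 * r ^ 3)
  linarith

/-- exponential moment of one variable, lower bound -/
theorem one_low {μ : Measure ℂ} [IsProbabilityMeasure μ] {r m1 m2 : ℝ} (hr : 0 < r)
    (hn : ∀ᵐ z ∂μ, ‖z‖ = r) (hm1 : ∫ z, z ∂μ = (m1 : ℂ)) (hm2 : ∫ z, z ^ 2 ∂μ = (m2 : ℂ))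
    {b : ℝ} (hb : 2 * |b| * r ≤ 1) :
    1 + 2 * b * m1 + b ^ 2 * (r ^ 2 + m2) - 8 * |b| ^ 3 * r ^ 3 ≤
    ∫ z, Real.exp (2 * b * z.re) ∂μ := by
  have hB : ∀ᵐ z ∂μ, ‖z‖ ≤ r := hn.mono fun z hz => hz.le
  have i1 : Integrable (fun z : ℂ => Real.exp (2 * b * z.re)) μ := integrable_of_bdd hB (by fun_prop)
  have i2 : Integrable (fun z : ℂ => z) μ := integrable_of_bdd hB (by fun_prop)
  have i3 : Integrable (fun z : ℂ => z ^ 2) μ := integrable_of_bdd hB (by fun_prop)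
  have i2' : Integrable (fun z : ℂ => z.re) μ := i2.re
  have i3' : Integrable (fun z : ℂ => (z ^ 2).re) μ := i3.re
  have e1 : ∫ z, z.re ∂μ = m1 := by
    have h1 : ∫ z, z.re ∂μ = (∫ z, z ∂μ).re := integral_re i2
    rw [h1, hm1, Complex.ofReal_re]
  have e2 : ∫ z, (z ^ 2).re ∂μ = m2 := by
    have h1 : ∫ z, (z ^ 2).re ∂μ = (∫ z, z ^ 2 ∂μ).re := integral_re i3
    rw [h1, hm2, Complex.ofReal_re]
  have h3 : ∫ z, (1 + 2 * b * z.re + b ^ 2 * (r ^ 2 + (z ^ 2).re) - 8 * |b| ^ 3 * r ^ 3) ∂μ ≤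
      ∫ z, Real.exp (2 * b * z.re) ∂μ := by
    refine integral_mono_ae ?_ i1 ?_
    · exact (((integrable_const _).add (i2'.const_mul _)).add (((integrable_const _).add i3').const_mul _)).sub
        (integrable_const _)
    · filter_upwards [hn] with z hz
      have h4 : |2 * b * z.re| ≤ 2 * |b| * r := by
        rw [abs_mul, abs_mul, abs_two]
        have := Complex.abs_re_le_norm z
        rw [hz] at this
        gcongr
      have h5 := exp_cubic_low (h4.trans hb)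
      have h6 : |2 * b * z.re| ^ 3 ≤ 8 * |b| ^ 3 * r ^ 3 := by
        have : 8 * |b| ^ 3 * r ^ 3 = (2 * |b| * r) ^ 3 := by ring
        rw [this]
        exact pow_le_pow_left₀ (abs_nonneg _) h4 3
      have h7 : z.re ^ 2 = (r ^ 2 + (z ^ 2).re) / 2 := by
        have h8 : ‖z‖ ^ 2 = r ^ 2 := by rw [hz]
        rw [← h8, Complex.sq_norm, Complex.normSq_apply, sq z, Complex.mul_re]
        ring
      have h9 : (2 * b * z.re) ^ 2 / 2 = b ^ 2 * (r ^ 2 + (z ^ 2).re) := by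
        have : (2 * b * z.re) ^ 2 / 2 = 2 * b ^ 2 * z.re ^ 2 := by ring
        rw [this, h7]; ring
      linarith
  have h4 : ∫ z, (1 + 2 * b * z.re + b ^ 2 * (r ^ 2 + (z ^ 2).re) - 8 * |b| ^ 3 * r ^ 3) ∂μ =
      1 + 2 * b * m1 + b ^ 2 * (r ^ 2 + m2) - 8 * |b| ^ 3 * r ^ 3 := by
    have j1 : Integrable (fun z : ℂ => 1 + 2 * b * z.re) μ := (integrable_const _).add (i2'.const_mul _)
    have j2 : Integrable (fun z : ℂ => b ^ 2 * (r ^ 2 + (z ^ 2).re)) μ :=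
      ((integrable_const _).add i3').const_mul _
    have j3 : Integrable (fun z : ℂ => 1 + 2 * b * z.re + b ^ 2 * (r ^ 2 + (z ^ 2).re)) μ :=
      j1.add j2
    rw [integral_sub j3 (integrable_const _), integral_add j1 j2, integral_add (integrable_const _) (i2'.const_mul _),
      integral_const_mul, integral_const_mul, integral_add (integrable_const _) i3', e1, e2]
    simp
  rw [h4] at h3
  exact h3

/-- the law of `r e(θ)` with the density `|1 - r e(θ)|^{-4}` -/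
theorem one_law {r : ℝ} (h0 : 0 < r) (h1 : r < 1) :
    ∃ μ : Measure ℂ, IsProbabilityMeasure μ ∧ (∀ᵐ z ∂μ, ‖z‖ = r) ∧
      ∀ k l : ℕ, ∫ z, z ^ k * (starRingEnd ℂ z) ^ l ∂μ =
        ((r ^ (k + l) * (Bq r ((k:ℤ) - l) / Bq r 0) : ℝ) : ℂ) := by
  have hr2 : 0 < 1 - r ^ 2 := by nlinarith
  have hB0 : 0 < Bq r 0 := by
    unfold Bq
    simp only [Int.natAbs_zero, pow_zero, Nat.cast_zero, zero_mul, add_zero, one_mul]
    positivity
  have hqc := qd_cont h0.le h1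
  set d : ℝ → ENNReal := fun x => ENNReal.ofReal (qd r x / Bq r 0) with hd
  have hdm : Measurable d := by
    have : Measurable fun x => qd r x / Bq r 0 := (hqc.div_const _).measurable
    exact this.ennreal_ofReal
  have hq0 : ∫ x, qd r x ∂uu = Bq r 0 := by
    have h2 := Aq_eq h0.le h1 0
    unfold Aq at h2
    have h3 : ∀ θ : ℝ, ec (((0:ℤ):ℝ) * θ) * ((qd r θ : ℝ) : ℂ) = ((qd r θ : ℝ) : ℂ) := by
      intro θ; simp [ec_zero]
    simp_rw [h3] at h2
    rw [integral_complex_ofReal] at h2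
    exact Complex.ofReal_injective h2
  have hqi : Integrable (qd r) uu := by
    refine Integrable.of_bound hqc.aestronglyMeasurable (((1 - r)⁻¹) ^ 4) (Filter.Eventually.of_forall fun x => ?_)
    rw [Real.norm_of_nonneg (qd_nonneg r x)]
    exact qd_le h0.le h1 x
  set g : ℝ → ℂ := fun x => (r:ℂ) * ec x with hg
  have hgc : Continuous g := by have := ec_cont; fun_prop
  have hgn : ∀ x, ‖g x‖ = r := by
    intro x
    rw [hg]
    simp only
    rw [norm_mul, ec_norm, mul_one, Complex.norm_real, Real.norm_of_nonneg h0.le]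
  have hprob : IsProbabilityMeasure (uu.withDensity d) := by
    refine ⟨?_⟩
    rw [withDensity_apply _ MeasurableSet.univ, Measure.restrict_univ, hd,
      ← ofReal_integral_eq_lintegral_ofReal (hqi.div_const _)
        (Filter.Eventually.of_forall fun x => div_nonneg (qd_nonneg r x) hB0.le), integral_div, hq0,
      div_self hB0.ne', ENNReal.ofReal_one]
  have hint : ∀ f : ℂ → ℂ, Continuous f → ∫ z, f z ∂((uu.withDensity d).map g) =
      ((1 / Bq r 0 : ℝ) : ℂ) * ∫ x, f (g x) * ((qd r x : ℝ) : ℂ) ∂uu := by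
    intro f hf
    rw [integral_map hgc.measurable.aemeasurable hf.aestronglyMeasurable,
      integral_withDensity_eq_integral_toReal_smul hdm (Filter.Eventually.of_forall fun x => ENNReal.ofReal_lt_top),
      ← integral_const_mul]
    refine integral_congr_ae (Filter.Eventually.of_forall fun x => ?_)
    simp only [hd]
    rw [ENNReal.toReal_ofReal (div_nonneg (qd_nonneg r x) hB0.le), Complex.real_smul]
    push_cast
    ring
  refine ⟨(uu.withDensity d).map g, Measure.isProbabilityMeasure_map hgc.measurable.aemeasurable, ?_, ?_⟩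
  · rw [ae_map_iff hgc.measurable.aemeasurable (measurableSet_eq_fun measurable_norm measurable_const)]
    exact Filter.Eventually.of_forall hgn
  · intro k l
    rw [hint _ (by fun_prop)]
    have e : ∀ x : ℝ, (g x) ^ k * (starRingEnd ℂ (g x)) ^ l * ((qd r x : ℝ) : ℂ) =
        ((r ^ (k + l) : ℝ) : ℂ) * (ec ((((k:ℤ) - l : ℤ) : ℝ) * x) * ((qd r x : ℝ) : ℂ)) := by
      intro x
      have e1 : (((k:ℤ) - l : ℤ) : ℝ) * x = (k:ℝ) * x + (l:ℝ) * (-x) := by push_cast; ring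
      rw [e1, ec_add, ec_nat, ec_nat, hg]
      simp only
      rw [map_mul, Complex.conj_ofReal, ec_conj]
      push_cast
      ring
    simp_rw [e]
    rw [integral_const_mul]
    have h2 := Aq_eq h0.le h1 ((k:ℤ) - l)
    unfold Aq at h2
    rw [h2]
    push_cast
    ring

/-- one prime -/
theorem law_prime2 {p : ℕ} (hp : p.Prime) (hp1 : 144 ≤ p) :
    ∃ μ : Measure ℂ, IsProbabilityMeasure μ ∧ (∀ᵐ z ∂μ, ‖z‖ ≤ 1) ∧
      (∀ k l : ℕ, ∫ z, z ^ k * (starRingEnd ℂ z) ^ l ∂μ = ((w2 (p ^ k, p ^ l) : ℝ) : ℂ)) ∧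
      (∀ c : ℂ, ‖c‖ ≤ 12 → ∫ z, Real.exp ((c * z).re) ∂μ ≤
        Real.exp ((2 * c.re + ‖c‖ ^ 2 / 4) * (1 / (p:ℝ)) +
          (‖c‖ + ‖c‖ ^ 2 + ‖c‖ ^ 3) * (p:ℝ) ^ (-(3 / 2 : ℝ)))) ∧
      ∀ a : ℝ, |a| ≤ 1 / 8 → Real.exp ((4 * a + a ^ 2) * (1 / (p:ℝ)) - 2 * |a| * (p:ℝ) ^ (-(3 / 2 : ℝ))) ≤
        ∫ z, Real.exp (2 * a * z.re) ∂μ := by
  have hpR : (144:ℝ) ≤ p := by exact_mod_cast hp1
  have hp0 : (0:ℝ) < p := by linarith
  set r : ℝ := (p:ℝ) ^ (-(1 / 2 : ℝ)) with hr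
  have hr0 : 0 < r := by positivity
  have hr2 : r ^ 2 = 1 / (p:ℝ) := by
    rw [hr, ← Real.rpow_natCast, ← Real.rpow_mul hp0.le]
    norm_num
    rw [Real.rpow_neg hp0.le, Real.rpow_one]
  have hr3 : r ^ 3 = (p:ℝ) ^ (-(3 / 2 : ℝ)) := by
    rw [hr, ← Real.rpow_natCast, ← Real.rpow_mul hp0.le]
    norm_num
  have hr12 : r ≤ 1 / 12 := by
    have h1 : r ^ 2 ≤ (1 / 12) ^ 2 := by
      rw [hr2, div_le_iff₀ hp0]; norm_num; linarith
    exact (sq_le_sq₀ hr0.le (by norm_num)).mp h1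
  have hr2' : 0 < 1 - r ^ 2 := by nlinarith
  obtain ⟨μ, hμ, hn, hm⟩ := one_law hr0 (by linarith)
  have hq : ((p:ℝ) - 1) / ((p:ℝ) + 1) = (1 - r ^ 2) / (1 + r ^ 2) := by
    rw [hr2]; field_simp
  have hmom : ∀ k l : ℕ, ∫ z, z ^ k * (starRingEnd ℂ z) ^ l ∂μ = ((w2 (p ^ k, p ^ l) : ℝ) : ℂ) := by
    intro k l
    rw [hm, w2_loc hp, ← hr2]
    congr 1
    unfold Bq q4
    simp only [Int.natAbs_zero, pow_zero, Nat.cast_zero, zero_mul, add_zero, one_mul]
    rw [hq]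
    have hpow : r ^ (k + l) * r ^ ((k:ℤ) - l).natAbs = (r ^ 2) ^ (max k l) := by
      rw [← pow_add, ← pow_mul]
      congr 1
      rcases le_total k l with h | h
      · rw [max_eq_right h]; omega
      · rw [max_eq_left h]; omega
    rw [← hpow]
    field_simp
  set m1 : ℝ := r ^ 2 * (1 + (1 - r ^ 2) / (1 + r ^ 2)) with hm1
  set m2 : ℝ := (r ^ 2) ^ 2 * (1 + 2 * ((1 - r ^ 2) / (1 + r ^ 2))) with hm2
  have h10 : ∫ z, z ∂μ = (m1 : ℂ) := by
    have h := hmom 1 0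
    simp only [pow_one, pow_zero, mul_one] at h
    rw [h]
    have h2 := w2_loc hp 1 0
    simp only [pow_one, pow_zero] at h2
    rw [h2, ← hr2]
    unfold q4
    rw [hq]
    congr 1
    rw [hm1]
    norm_num
  have h20 : ∫ z, z ^ 2 ∂μ = (m2 : ℂ) := by
    have h := hmom 2 0
    simp only [pow_zero, mul_one] at h
    rw [h]
    have h2 := w2_loc hp 2 0
    simp only [pow_zero] at h2
    rw [h2, ← hr2]
    unfold q4
    rw [hq]
    congr 1
  have hm20 : 0 ≤ m2 := by positivity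
  have hqle : (1 - r ^ 2) / (1 + r ^ 2) ≤ 1 := by
    rw [div_le_one (by positivity)]; nlinarith [sq_nonneg r]
  have hm2le : m2 ≤ r ^ 3 := by
    have h3 : m2 ≤ (r ^ 2) ^ 2 * 3 := by
      rw [hm2]; exact mul_le_mul_of_nonneg_left (by linarith) (by positivity)
    have h4 : (r ^ 2) ^ 2 * 3 = (3 * r) * r ^ 3 := by ring
    have h5 : (3 * r) * r ^ 3 ≤ 1 * r ^ 3 := mul_le_mul_of_nonneg_right (by linarith) (by positivity)
    linarith
  have hm1e : m1 = 2 * r ^ 2 - 2 * r ^ 4 / (1 + r ^ 2) := by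
    rw [hm1]; field_simp; ring
  have hdl : 2 * r ^ 4 / (1 + r ^ 2) ≤ r ^ 3 / 6 := by
    rw [div_le_iff₀ (by positivity)]
    have h6 : 2 * r ^ 4 = (2 * r) * r ^ 3 := by ring
    have h7 : 0 < r ^ 3 := by positivity
    nlinarith [mul_nonneg h7.le (sq_nonneg r)]
  have hdl0 : 0 ≤ 2 * r ^ 4 / (1 + r ^ 2) := by positivity
  refine ⟨μ, hμ, hn.mono fun z hz => by rw [hz]; linarith, hmom, ?_, ?_⟩
  · intro c hc
    have h1 := one_exp (μ := μ) hr0 hn h10 h20 hm20 (c := c) (by nlinarith [norm_nonneg c])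
    refine h1.trans (Real.exp_le_exp.mpr ?_)
    rw [← hr3, ← hr2]
    have n0 := norm_nonneg c
    have h2 : ‖c‖ ^ 2 * m2 / 4 ≤ ‖c‖ ^ 2 * r ^ 3 := by
      have := mul_le_mul_of_nonneg_left hm2le (sq_nonneg ‖c‖)
      have h3 : 0 ≤ ‖c‖ ^ 2 * m2 := by positivity
      linarith
    have h3 : c.re * m1 ≤ 2 * c.re * r ^ 2 + ‖c‖ * r ^ 3 := by
      rw [hm1e]
      have h4 := (abs_le.mp (Complex.abs_re_le_norm c)).1
      have h5 : -c.re * (2 * r ^ 4 / (1 + r ^ 2)) ≤ ‖c‖ * (2 * r ^ 4 / (1 + r ^ 2)) :=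
        mul_le_mul_of_nonneg_right (by linarith) hdl0
      have h6 : ‖c‖ * (2 * r ^ 4 / (1 + r ^ 2)) ≤ ‖c‖ * (r ^ 3 / 6) := mul_le_mul_of_nonneg_left hdl n0
      have h7 : 0 ≤ ‖c‖ * r ^ 3 := by positivity
      nlinarith
    have e : (2 * c.re + ‖c‖ ^ 2 / 4) * r ^ 2 + (‖c‖ + ‖c‖ ^ 2 + ‖c‖ ^ 3) * r ^ 3 =
        2 * c.re * r ^ 2 + ‖c‖ * r ^ 3 + ‖c‖ ^ 2 * r ^ 2 / 4 + ‖c‖ ^ 2 * r ^ 3 + ‖c‖ ^ 3 * r ^ 3 := by ring
    rw [e]
    linarith
  · intro a ha
    have h1 := one_low (μ := μ) hr0 hn h10 h20 (b := a) (by nlinarith [abs_nonneg a])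
    refine le_trans ?_ h1
    rw [← hr3, ← hr2]
    have a0 := abs_nonneg a
    set m := (4 * a + a ^ 2) * r ^ 2 with hm'
    have r3 : 0 < r ^ 3 := by positivity
    have a3 : 8 * |a| ^ 3 * r ^ 3 ≤ |a| / 8 * r ^ 3 := by
      refine mul_le_mul_of_nonneg_right ?_ r3.le
      have e3 : 8 * |a| ^ 3 = |a| * (8 * |a| ^ 2) := by ring
      have h4 : 8 * |a| ^ 2 ≤ 1 / 8 := by nlinarith
      rw [e3]
      nlinarith
    have ha1 : 2 * a * m1 ≥ 4 * a * r ^ 2 - |a| / 3 * r ^ 3 := by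
      rw [hm1e]
      have h4 := le_abs_self a
      have h5 : a * (2 * r ^ 4 / (1 + r ^ 2)) ≤ |a| * (2 * r ^ 4 / (1 + r ^ 2)) :=
        mul_le_mul_of_nonneg_right h4 hdl0
      have h6 : |a| * (2 * r ^ 4 / (1 + r ^ 2)) ≤ |a| * (r ^ 3 / 6) := mul_le_mul_of_nonneg_left hdl a0
      nlinarith
    set x := m - |a| * r ^ 3 with hx
    have haa : a ^ 2 ≤ 1 / 8 * |a| := by rw [← sq_abs]; nlinarith
    have hr2'' : r ^ 2 ≤ 1 / 144 := by nlinarith
    have hr3' : r ^ 3 ≤ 1 / 12 * r ^ 2 := by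
      have : r ^ 3 = r * r ^ 2 := by ring
      rw [this]; gcongr
    have hab : |m| ≤ (4 * |a| + 1 / 8 * |a|) * r ^ 2 := by
      rw [hm', abs_mul, abs_of_nonneg (by positivity : 0 ≤ r ^ 2)]
      refine mul_le_mul_of_nonneg_right ?_ (by positivity)
      refine (abs_add_le _ _).trans ?_
      rw [abs_mul, abs_of_nonneg (by norm_num : (0:ℝ) ≤ 4), abs_of_nonneg (sq_nonneg a)]
      linarith
    have hxb : |x| ≤ 5 * |a| * r ^ 2 := by
      rw [hx]
      refine (abs_sub _ _).trans ?_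
      rw [abs_of_nonneg (by positivity : 0 ≤ |a| * r ^ 3)]
      have : |a| * r ^ 3 ≤ |a| * (1 / 12 * r ^ 2) := mul_le_mul_of_nonneg_left hr3' a0
      nlinarith [mul_nonneg a0 (sq_nonneg r)]
    have hx12 : -(1 / 2) ≤ x := by
      have h7 := (abs_le.mp hxb).1
      nlinarith [mul_nonneg a0 (sq_nonneg r)]
    have hxx : 2 * x ^ 2 ≤ |a| * r ^ 3 := by
      have h8 : x ^ 2 ≤ (5 * |a| * r ^ 2) ^ 2 := by rw [← sq_abs x]; exact pow_le_pow_left₀ (abs_nonneg _) hxb 2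
      have h9 : (5 * |a| * r ^ 2) ^ 2 = 25 * (a ^ 2 * (r * r ^ 3)) := by rw [mul_pow, mul_pow, sq_abs]; ring
      have h10 : a ^ 2 * (r * r ^ 3) ≤ (1 / 8 * |a|) * (1 / 12 * r ^ 3) := by gcongr
      have h11 : 0 ≤ |a| * r ^ 3 := by positivity
      nlinarith
    have hexp := exp_le_quad hx12
    calc Real.exp (m - 2 * |a| * r ^ 3) ≤ Real.exp (x - 2 * x ^ 2) := by
          apply Real.exp_le_exp.mpr
          have : x = m - |a| * r ^ 3 := hx
          linarith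
      _ ≤ 1 + x := hexp
      _ ≤ _ := by
          have h12 : 0 ≤ a ^ 2 * m2 := by positivity
          have h13 : x = 4 * a * r ^ 2 + a ^ 2 * r ^ 2 - |a| * r ^ 3 := by rw [hx, hm']; ring
          have h14 : 0 ≤ |a| * r ^ 3 := by positivity
          nlinarith

end

end Pool.Agent.TH971.N4_W2
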