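import Pool.Agent.TH971.N4W2.Loc1

set_option autoImplicit false

/-! The law of the sum over the primes of a range for the weight `w2`, and the local bounds. -/

namespace Pool.Agent.TH971.N4_W2

open Finset Filter Topology MeasureTheory Complex MonoidAlgebra
open Pool.Agent.W184.NZ Pool.Agent.TH806 Pool.Agent.TH806.N4

noncomputable section

/-- the law of the sum over the primes of `I` for the weight `w2` -/
structure LawV (I : Finset ℕ) (ν : Measure ℂ) : Prop where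
  prob : IsProbabilityMeasure ν
  bdd : ∃ B : ℝ, ∀ᵐ z ∂ν, ‖z‖ ≤ B
  mom : ∀ k l : ℕ, ∫ z, z ^ k * (starRingEnd ℂ z) ^ l ∂ν = ((lam w2 (xI I ^ k * yI I ^ l) : ℝ) : ℂ)
  expb : ∀ c : ℂ, ‖c‖ ≤ 12 → ∫ z, Real.exp ((c * z).re) ∂ν ≤
    Real.exp ((2 * c.re + ‖c‖ ^ 2 / 4) * vI I + (‖c‖ + ‖c‖ ^ 2 + ‖c‖ ^ 3) * uI I)
  expl : ∀ a : ℝ, |a| ≤ 1 / 8 →
    Real.exp ((4 * a + a ^ 2) * vI I - 2 * |a| * uI I) ≤ ∫ z, Real.exp (2 * a * z.re) ∂ν

theorem law_exists2 (I : Finset ℕ) : (∀ p ∈ I, p.Prime ∧ 144 ≤ p) → ∃ ν : Measure ℂ, LawV I ν := by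
  induction I using Finset.induction_on with
  | empty =>
    intro _
    refine ⟨Measure.dirac 0, ⟨inferInstance, ⟨0, ?_⟩, ?_, ?_, ?_⟩⟩
    · rw [ae_dirac_iff (measurableSet_le measurable_norm measurable_const)]; simp
    · intro k l
      rw [integral_dirac]
      have h1 : xI ∅ = 0 := by simp [xI]
      have h2 : yI ∅ = 0 := by simp [yI]
      rw [h1, h2, map_zero]
      rcases Nat.eq_zero_or_pos k with hk | hk
      · rcases Nat.eq_zero_or_pos l with hl | hl
        · subst hk; subst hl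
          simp [lam2_one]
        · rw [zero_pow hl.ne', zero_pow hl.ne']; simp
      · rw [zero_pow hk.ne', zero_pow hk.ne']; simp
    · intro c _
      rw [integral_dirac]
      simp [vI, uI]
    · intro a _
      rw [integral_dirac]
      simp [vI, uI]
  | insert p I hpI ih =>
    intro hI
    obtain ⟨ν, hν⟩ := ih fun q hq => hI q (mem_insert_of_mem hq)
    obtain ⟨hp, hp144⟩ := hI p (mem_insert_self _ _)
    obtain ⟨μ, hμ, hμ1, hμm, hμe, hμl⟩ := law_prime2 hp hp144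
    have := hν.prob
    have := hμ
    obtain ⟨B, hB⟩ := hν.bdd
    have hIp : ∀ q ∈ I, q.Prime := fun q hq => (hI q (mem_insert_of_mem hq)).1
    have hx : xI (insert p I) = single (p, 1) 1 + xI I := by
      unfold xI; rw [sum_insert hpI]
    have hy : yI (insert p I) = single (1, p) 1 + yI I := by
      unfold yI; rw [sum_insert hpI]
    have hv : vI (insert p I) = 1 / (p:ℝ) + vI I := by
      unfold vI; rw [sum_insert hpI]
    have hu : uI (insert p I) = (p:ℝ) ^ (-(3 / 2 : ℝ)) + uI I := by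
      unfold uI; rw [sum_insert hpI]
    have hdisj : Disjoint {p} I := Finset.disjoint_singleton_left.mpr hpI
    have hxp : single ((p, 1) : ℕ × ℕ) (1:ℝ) ∈ SA (MI {p}) :=
      single_mem_SA (prime_mem_MI hp (mem_singleton_self p)).1 1
    have hyp : single ((1, p) : ℕ × ℕ) (1:ℝ) ∈ SA (MI {p}) :=
      single_mem_SA (prime_mem_MI hp (mem_singleton_self p)).2 1
    have hadd : Measurable fun q : ℂ × ℂ => q.1 + q.2 := by fun_prop
    have ib : ∀ {f : ℂ → ℂ}, Continuous f → Integrable f ν := fun hf => integrable_of_bdd hB hf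
    have ib' : ∀ {f : ℂ → ℂ}, Continuous f → Integrable f μ := fun hf => integrable_of_bdd hμ1 hf
    refine ⟨(μ.prod ν).map fun q => q.1 + q.2, ⟨Measure.isProbabilityMeasure_map hadd.aemeasurable,
      ⟨1 + B, ?_⟩, ?_, ?_, ?_⟩⟩
    · rw [ae_map_iff hadd.aemeasurable (measurableSet_le measurable_norm measurable_const)]
      have h1 : ∀ᵐ q ∂(μ.prod ν), ‖q.1‖ ≤ 1 := Measure.quasiMeasurePreserving_fst.ae hμ1
      have h2 : ∀ᵐ q ∂(μ.prod ν), ‖q.2‖ ≤ B := Measure.quasiMeasurePreserving_snd.ae hB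
      filter_upwards [h1, h2] with q hq1 hq2
      exact (norm_add_le _ _).trans (by linarith)
    · intro k l
      have hc : Continuous fun z : ℂ => z ^ k * (starRingEnd ℂ z) ^ l := by fun_prop
      rw [integral_map hadd.aemeasurable hc.aestronglyMeasurable, hx, hy]
      have e1 : ∀ q : ℂ × ℂ, (q.1 + q.2) ^ k * (starRingEnd ℂ (q.1 + q.2)) ^ l =
          ∑ i ∈ range (k + 1), ∑ j ∈ range (l + 1), ((k.choose i : ℂ) * (l.choose j : ℂ)) *
            ((q.1 ^ i * (starRingEnd ℂ q.1) ^ j) * (q.2 ^ (k - i) * (starRingEnd ℂ q.2) ^ (l - j))) := by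
        intro q
        rw [map_add, add_pow, add_pow, sum_mul_sum]
        refine sum_congr rfl fun i _ => sum_congr rfl fun j _ => ?_
        ring
      simp_rw [e1]
      have hi : ∀ i j : ℕ, Integrable (fun q : ℂ × ℂ => ((k.choose i : ℂ) * (l.choose j : ℂ)) *
            ((q.1 ^ i * (starRingEnd ℂ q.1) ^ j) * (q.2 ^ (k - i) * (starRingEnd ℂ q.2) ^ (l - j))))
            (μ.prod ν) := by
        intro i j
        refine Integrable.const_mul ?_ _
        exact Integrable.mul_prod (f := fun z : ℂ => z ^ i * (starRingEnd ℂ z) ^ j)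
          (g := fun z : ℂ => z ^ (k - i) * (starRingEnd ℂ z) ^ (l - j)) (ib' (by fun_prop)) (ib (by fun_prop))
      rw [integral_finsetSum _ fun i _ => integrable_finsetSum _ fun j _ => hi i j]
      have e2 : (single ((p, 1) : ℕ × ℕ) (1:ℝ) + xI I) ^ k * (single ((1, p) : ℕ × ℕ) (1:ℝ) + yI I) ^ l =
          ∑ i ∈ range (k + 1), ∑ j ∈ range (l + 1), ((k.choose i : ℝ) * (l.choose j : ℝ)) •
            ((single ((p, 1) : ℕ × ℕ) (1:ℝ) ^ i * single ((1, p) : ℕ × ℕ) (1:ℝ) ^ j) *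
              (xI I ^ (k - i) * yI I ^ (l - j))) := by
        rw [add_pow, add_pow, sum_mul_sum]
        refine sum_congr rfl fun i _ => sum_congr rfl fun j _ => ?_
        rw [Algebra.smul_def, map_mul, map_natCast, map_natCast]
        ring
      rw [e2, map_sum]
      push_cast
      refine sum_congr rfl fun i _ => ?_
      rw [integral_finsetSum _ fun j _ => hi i j, map_sum]
      push_cast
      refine sum_congr rfl fun j _ => ?_
      rw [integral_const_mul, integral_prod_mul (fun z : ℂ => z ^ i * (starRingEnd ℂ z) ^ j)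
        (fun z : ℂ => z ^ (k - i) * (starRingEnd ℂ z) ^ (l - j)), hμm, hν.mom, map_smul, smul_eq_mul,
        lam2_mul hdisj (Subalgebra.mul_mem _ (Subalgebra.pow_mem _ hxp i) (Subalgebra.pow_mem _ hyp j))
          (Subalgebra.mul_mem _ (Subalgebra.pow_mem _ (xI_mem hIp) _) (Subalgebra.pow_mem _ (yI_mem hIp) _)),
        xp_pow, lam_single, one_mul]
      push_cast
      ring
    · intro c hc
      have hcc : Continuous fun z : ℂ => Real.exp ((c * z).re) := by fun_prop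
      rw [integral_map hadd.aemeasurable hcc.aestronglyMeasurable]
      have e1 : ∀ q : ℂ × ℂ, Real.exp ((c * (q.1 + q.2)).re) =
          Real.exp ((c * q.1).re) * Real.exp ((c * q.2).re) := by
        intro q
        rw [mul_add, Complex.add_re, Real.exp_add]
      simp_rw [e1]
      rw [integral_prod_mul (fun z : ℂ => Real.exp ((c * z).re)) (fun z : ℂ => Real.exp ((c * z).re))]
      calc (∫ z, Real.exp ((c * z).re) ∂μ) * (∫ z, Real.exp ((c * z).re) ∂ν) ≤ _ :=
            mul_le_mul (hμe c hc) (hν.expb c hc) (integral_nonneg fun z => (Real.exp_pos _).le)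
              (Real.exp_pos _).le
        _ = _ := by
            rw [← Real.exp_add, hv, hu]
            congr 1
            ring
    · intro a ha
      have hcc : Continuous fun z : ℂ => Real.exp (2 * a * z.re) := by fun_prop
      rw [integral_map hadd.aemeasurable hcc.aestronglyMeasurable]
      have e1 : ∀ q : ℂ × ℂ, Real.exp (2 * a * (q.1 + q.2).re) =
          Real.exp (2 * a * q.1.re) * Real.exp (2 * a * q.2.re) := by
        intro q
        rw [Complex.add_re, mul_add, Real.exp_add]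
      simp_rw [e1]
      rw [integral_prod_mul (fun z : ℂ => Real.exp (2 * a * z.re)) (fun z : ℂ => Real.exp (2 * a * z.re))]
      calc _ = Real.exp ((4 * a + a ^ 2) * (1 / (p:ℝ)) - 2 * |a| * (p:ℝ) ^ (-(3 / 2 : ℝ))) *
            Real.exp ((4 * a + a ^ 2) * vI I - 2 * |a| * uI I) := by
            rw [← Real.exp_add, hv, hu]
            congr 1
            ring
        _ ≤ (∫ z, Real.exp (2 * a * z.re) ∂μ) * (∫ z, Real.exp (2 * a * z.re) ∂ν) :=
            mul_le_mul (hμl a ha) (hν.expl a ha) (Real.exp_pos _).le (integral_nonneg fun z => (Real.exp_pos _).le)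

section

variable {I : Finset ℕ} {ν : Measure ℂ}

lemma law_NK2 (h : LawV I ν) (K K' : ℕ) (a a' : ℝ) :
    ((lam w2 (NK K a (xI I) * NK K' a' (yI I)) : ℝ) : ℂ) =
      ∫ z, NK K a z * NK K' a' (starRingEnd ℂ z) ∂ν := by
  have := h.prob
  obtain ⟨B, hB⟩ := h.bdd
  have hi : ∀ k l : ℕ, Integrable (fun z : ℂ => ((a ^ k / (k.factorial : ℝ) * (a' ^ l / (l.factorial : ℝ)) : ℝ) : ℂ) *
      (z ^ k * (starRingEnd ℂ z) ^ l)) ν := fun k l => integrable_of_bdd hB (by fun_prop)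
  have e1 : NK K a (xI I) * NK K' a' (yI I) = ∑ k ∈ range (K + 1), ∑ l ∈ range (K' + 1),
      (a ^ k / (k.factorial : ℝ) * (a' ^ l / (l.factorial : ℝ))) • (xI I ^ k * yI I ^ l) := by
    unfold NK
    rw [sum_mul_sum]
    refine sum_congr rfl fun k _ => sum_congr rfl fun l _ => ?_
    rw [smul_mul_smul_comm]
  have e2 : ∀ z : ℂ, NK K a z * NK K' a' (starRingEnd ℂ z) = ∑ k ∈ range (K + 1), ∑ l ∈ range (K' + 1),
      ((a ^ k / (k.factorial : ℝ) * (a' ^ l / (l.factorial : ℝ)) : ℝ) : ℂ) *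
      (z ^ k * (starRingEnd ℂ z) ^ l) := by
    intro z
    unfold NK
    rw [sum_mul_sum]
    refine sum_congr rfl fun k _ => sum_congr rfl fun l _ => ?_
    rw [smul_mul_smul_comm, Complex.real_smul]
  simp_rw [e2]
  rw [e1, map_sum, integral_finsetSum _ fun k _ => integrable_finsetSum _ fun l _ => hi k l]
  push_cast
  refine sum_congr rfl fun k _ => ?_
  have hi' := hi k
  push_cast at hi'
  rw [map_sum, integral_finsetSum _ fun l _ => hi' l]
  push_cast
  refine sum_congr rfl fun l _ => ?_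
  rw [integral_const_mul, h.mom, map_smul, smul_eq_mul]
  push_cast
  ring

lemma law_ball2 (h : LawV I ν) (R : ℕ) :
    lam w2 (((1 / (R:ℝ)) ^ (2 * R)) • (xI I ^ R * yI I ^ R)) = ∫ z, (‖z‖ / R) ^ (2 * R) ∂ν := by
  have h1 := h.mom R R
  have e1 : ∀ z : ℂ, z ^ R * (starRingEnd ℂ z) ^ R = ((‖z‖ ^ (2 * R) : ℝ) : ℂ) := by
    intro z
    rw [← mul_pow, Complex.mul_conj, Complex.normSq_eq_norm_sq, ← Complex.ofReal_pow, ← pow_mul]
  simp_rw [e1] at h1
  rw [integral_complex_ofReal] at h1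
  have h2 := Complex.ofReal_injective h1
  rw [map_smul, smul_eq_mul, ← h2, ← integral_const_mul]
  refine integral_congr_ae (Filter.Eventually.of_forall fun z => ?_)
  simp only
  rw [div_pow, div_pow, one_pow]; ring

lemma lam_gE2 (h : LawV I ν) (K : ℕ) (a : ℝ) (R : ℕ) : lam w2 (gE K a R I) = ∫ z, gf K a R z ∂ν := by
  have := h.prob
  obtain ⟨B, hB⟩ := h.bdd
  have h1 := law_NK2 h K K a a
  simp_rw [NK_sq] at h1
  rw [integral_complex_ofReal] at h1
  have h2 := Complex.ofReal_injective h1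
  unfold gE
  rw [map_add, h2, law_ball2 h R, ← integral_add]
  · rfl
  · refine integrable_of_bdd hB ?_
    unfold NK; fun_prop
  · exact integrable_of_bdd hB (by fun_prop)

lemma lam_gl2 (h : LawV I ν) (lm : ℝ) (R : ℕ) (a : ℝ) : lam w2 (gl lm R a I) = ∫ z, glf lm R a z ∂ν := by
  have := h.prob
  obtain ⟨B, hB⟩ := h.bdd
  have h1 := law_NK2 h R R a a
  simp_rw [NK_sq] at h1
  rw [integral_complex_ofReal] at h1
  have h2 := Complex.ofReal_injective h1
  unfold gl
  rw [map_add, h2, mul_smul, map_smul, law_ball2 h R, smul_eq_mul, ← integral_const_mul, ← integral_add]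
  · rfl
  · refine integrable_of_bdd hB ?_
    unfold NK; fun_prop
  · exact integrable_of_bdd hB (by fun_prop)

/-- bound for the exponential moment -/
def CD (v u : ℝ) : ℝ := 4 * Real.exp (16 * v + 226 * u)

lemma CD_pos (v u : ℝ) : 0 < CD v u := by unfold CD; positivity

lemma CD_mono {v v' u u' : ℝ} (h1 : v ≤ v') (h2 : u ≤ u') : CD v u ≤ CD v' u' := by
  unfold CD
  gcongr

lemma law_exp4_2 (h : LawV I ν) : ∫ z, Real.exp (4 * ‖z‖) ∂ν ≤ CD (vI I) (uI I) := by
  have := h.prob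
  obtain ⟨B, hB⟩ := h.bdd
  have hi : ∀ c : ℂ, Integrable (fun z : ℂ => Real.exp ((c * z).re)) ν :=
    fun c => integrable_of_bdd hB (by fun_prop)
  have hv := vI_nonneg I
  have hu := uI_nonneg I
  have key : ∀ c : ℂ, ‖c‖ ^ 2 = 32 → c.re ≤ 4 → ∫ z, Real.exp ((c * z).re) ∂ν ≤
      Real.exp (16 * vI I + 226 * uI I) := by
    intro c hc hre
    have h6 : ‖c‖ ≤ 6 := by nlinarith [norm_nonneg c]
    refine (h.expb c (by linarith)).trans (Real.exp_le_exp.mpr ?_)
    have h1 : (2 * c.re + ‖c‖ ^ 2 / 4) ≤ 16 := by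
      rw [hc]; linarith
    have h2 : ‖c‖ + ‖c‖ ^ 2 + ‖c‖ ^ 3 ≤ 226 := by
      have h3 : ‖c‖ ≤ 5.7 := by nlinarith [norm_nonneg c]
      have : ‖c‖ ^ 3 = 32 * ‖c‖ := by rw [pow_succ, hc]
      rw [this, hc]; linarith
    have h3 := mul_le_mul_of_nonneg_right h1 hv
    have h4 := mul_le_mul_of_nonneg_right h2 hu
    linarith
  have nrm : ∀ x y : ℝ, ‖((x:ℂ) + y * Complex.I)‖ ^ 2 = x ^ 2 + y ^ 2 := by
    intro x y
    rw [Complex.sq_norm, Complex.normSq_add_mul_I]
  have k1 := key ((4:ℂ) - 4 * Complex.I) (by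
    have := nrm 4 (-4); push_cast at this; rw [show (4:ℂ) - 4 * Complex.I = 4 + -4 * Complex.I by ring, this]; norm_num) (by simp)
  have k2 := key ((4:ℂ) + 4 * Complex.I) (by
    have := nrm 4 4; push_cast at this; rw [this]; norm_num) (by simp)
  have k3 := key ((-4:ℂ) - 4 * Complex.I) (by
    have := nrm (-4) (-4); push_cast at this; rw [show (-4:ℂ) - 4 * Complex.I = -4 + -4 * Complex.I by ring, this]; norm_num) (by simp)
  have k4 := key ((-4:ℂ) + 4 * Complex.I) (by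
    have := nrm (-4) 4; push_cast at this; rw [this]; norm_num) (by simp)
  have h1 : ∫ z, Real.exp (4 * ‖z‖) ∂ν ≤
      ∫ z, (Real.exp ((((4:ℂ) - 4 * Complex.I) * z).re) + Real.exp ((((4:ℂ) + 4 * Complex.I) * z).re) +
    Real.exp ((((-4:ℂ) - 4 * Complex.I) * z).re) + Real.exp ((((-4:ℂ) + 4 * Complex.I) * z).re)) ∂ν := by
    refine integral_mono (integrable_of_bdd hB (by fun_prop)) ?_ norm_exp_le
    exact (((hi _).add (hi _)).add (hi _)).add (hi _)
  have j1 : Integrable (fun z : ℂ => Real.exp ((((4:ℂ) - 4 * Complex.I) * z).re) +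
      Real.exp ((((4:ℂ) + 4 * Complex.I) * z).re)) ν := (hi _).add (hi _)
  have j2 : Integrable (fun z : ℂ => Real.exp ((((4:ℂ) - 4 * Complex.I) * z).re) +
      Real.exp ((((4:ℂ) + 4 * Complex.I) * z).re) + Real.exp ((((-4:ℂ) - 4 * Complex.I) * z).re)) ν :=
    j1.add (hi _)
  rw [integral_add j2 (hi _), integral_add j1 (hi _), integral_add (hi _) (hi _)] at h1
  unfold CD
  linarith

/-- the exponent of the upper bounds -/
def EU (a : ℝ) (I : Finset ℕ) : ℝ := (4 * a + a ^ 2) * vI I + 3 * |a| * uI I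

lemma exp_up2 (h : LawV I ν) {a : ℝ} (ha : |a| ≤ 1 / 16) :
    ∫ z : ℂ, Real.exp (2 * a * z.re) ∂ν ≤ Real.exp (EU a I) := by
  have u0 := uI_nonneg I
  have hc : ‖((2 * a : ℝ) : ℂ)‖ = 2 * |a| := by
    rw [Complex.norm_real, Real.norm_eq_abs, abs_mul]; norm_num
  have h5 := h.expb ((2 * a : ℝ) : ℂ) (by rw [hc]; linarith)
  have e1 : ∀ z : ℂ, (((2 * a : ℝ) : ℂ) * z).re = 2 * a * z.re := fun z => Complex.re_ofReal_mul _ _
  simp_rw [e1] at h5
  rw [hc, Complex.ofReal_re] at h5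
  refine h5.trans (Real.exp_le_exp.mpr ?_)
  have a0 := abs_nonneg a
  have h7 : (2 * |a|) ^ 2 = 4 * a ^ 2 := by rw [mul_pow, sq_abs]; ring
  have h8 : 2 * |a| + (2 * |a|) ^ 2 + (2 * |a|) ^ 3 ≤ 3 * |a| := by
    have h9 : |a| ^ 2 ≤ 1 / 16 * |a| := by nlinarith
    have h10 : |a| ^ 3 ≤ 1 / 16 * |a| := by
      have : |a| ^ 3 = |a| ^ 2 * |a| := by ring
      nlinarith [sq_nonneg |a|]
    have e2 : 2 * |a| + (2 * |a|) ^ 2 + (2 * |a|) ^ 3 = 2 * |a| + 4 * |a| ^ 2 + 8 * |a| ^ 3 := by ring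
    rw [e2]; linarith
  have h9 := mul_le_mul_of_nonneg_right h8 u0
  have e : (2 * (2 * a) + (2 * |a|) ^ 2 / 4) * vI I = (4 * a + a ^ 2) * vI I := by rw [h7]; ring
  unfold EU
  rw [e]
  linarith

/-- the constant in the exponent -/
def Bd2 (c : ℝ) : ℝ := 3 + 2 * CD c c * Real.exp c

lemma Bd2_pos (c : ℝ) : 0 < Bd2 c := by
  unfold Bd2; have := CD_pos c c; positivity

lemma EU_ge {c a : ℝ} (hv : vI I ≤ c) (ha : |a| ≤ 1 / 16) : -c ≤ EU a I := by
  have v0 := vI_nonneg I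
  have u0 := uI_nonneg I
  obtain ⟨ha1, ha2⟩ := abs_le.mp ha
  have e1 : -1 ≤ 4 * a + a ^ 2 := by nlinarith [sq_nonneg a]
  have e2 : 0 ≤ 3 * |a| * uI I := by positivity
  unfold EU
  nlinarith

lemma gE_up2 {c : ℝ} (hI : ∀ p ∈ I, p.Prime ∧ 144 ≤ p) (hv : vI I ≤ c) (hu : uI I ≤ c) {R : ℕ}
    (hR : 1 ≤ R) {a : ℝ} (ha : |a| ≤ 1 / 16) :
    0 ≤ lam w2 (gE (20 * R) a R I) ∧
    lam w2 (gE (20 * R) a R I) ≤ Real.exp (EU a I + Bd2 c * Real.exp (-(R:ℝ))) := by
  obtain ⟨ν, h⟩ := law_exists2 I hI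
  have := h.prob
  obtain ⟨B, hB⟩ := h.bdd
  have ha' : |a| ≤ 1 := by linarith
  rw [lam_gE2 h]
  refine ⟨integral_nonneg fun z => gf_nonneg _ _ _ _, ?_⟩
  have h4 := law_exp4_2 h
  have h6 := exp_up2 h ha
  have hcl := cl_twenty hR ha'
  set x := Real.exp (-(R:ℝ)) with hx
  have hx0 : 0 < x := Real.exp_pos _
  have hx1 : x ≤ 1 := Real.exp_le_one_iff.mpr (by simp)
  have hx2 : Real.exp (-(2 * (R:ℝ))) = x ^ 2 := by
    rw [hx, ← Real.exp_nat_mul]; congr 1; push_cast; ring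
  have i1 : Integrable (fun z : ℂ => Real.exp (2 * a * z.re)) ν := integrable_of_bdd hB (by fun_prop)
  have i2 : Integrable (fun z : ℂ => Real.exp (4 * ‖z‖)) ν := integrable_of_bdd hB (by fun_prop)
  have h7 : ∫ z, gf (20 * R) a R z ∂ν ≤ ∫ z : ℂ, ((1 + x) ^ 2 * Real.exp (2 * a * z.re) +
      2 * x ^ 2 * Real.exp (4 * ‖z‖)) ∂ν := by
    refine integral_mono (integrable_of_bdd hB ?_) ((i1.const_mul _).add (i2.const_mul _)) fun z => ?_
    · unfold gf NK; fun_prop
    · have a1 := NK_sq_le hcl ha' z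
      have a2 := ball_pow_le hR z
      rw [hx2] at a1 a2
      simp only [Pi.add_apply]
      unfold gf
      linarith
  rw [integral_add (i1.const_mul _) (i2.const_mul _), integral_const_mul, integral_const_mul] at h7
  have hEc := EU_ge hv ha
  have hD : CD (vI I) (uI I) ≤ CD c c := CD_mono hv hu
  have hD0 := CD_pos c c
  have h2 : 1 ≤ Real.exp (EU a I) * Real.exp c := by
    rw [← Real.exp_add]; exact Real.one_le_exp (by linarith)
  calc ∫ z, gf (20 * R) a R z ∂ν ≤ (1 + x) ^ 2 * (∫ z : ℂ, Real.exp (2 * a * z.re) ∂ν) +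
        2 * x ^ 2 * ∫ z : ℂ, Real.exp (4 * ‖z‖) ∂ν := h7
    _ ≤ (1 + x) ^ 2 * Real.exp (EU a I) + 2 * x ^ 2 * CD c c := by
      have := h4.trans hD
      gcongr
    _ ≤ (1 + x) ^ 2 * Real.exp (EU a I) + 2 * x ^ 2 * CD c c * (Real.exp (EU a I) * Real.exp c) := by
      have h3 : 2 * x ^ 2 * CD c c * 1 ≤ 2 * x ^ 2 * CD c c * (Real.exp (EU a I) * Real.exp c) := by
        gcongr
      linarith
    _ = Real.exp (EU a I) * ((1 + x) ^ 2 + 2 * CD c c * Real.exp c * x ^ 2) := by ring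
    _ ≤ Real.exp (EU a I) * (Bd2 c * x + 1) := by
      refine mul_le_mul_of_nonneg_left ?_ (Real.exp_pos _).le
      unfold Bd2
      have hx3 : x ^ 2 ≤ x := by nlinarith
      have h4 : 2 * CD c c * Real.exp c * x ^ 2 ≤ 2 * CD c c * Real.exp c * x := by gcongr
      nlinarith
    _ ≤ Real.exp (EU a I) * Real.exp (Bd2 c * x) :=
      mul_le_mul_of_nonneg_left (Real.add_one_le_exp _) (Real.exp_pos _).le
    _ = _ := by rw [← Real.exp_add]

lemma gl_up2 {c : ℝ} (hI : ∀ p ∈ I, p.Prime ∧ 144 ≤ p) (hv : vI I ≤ c) (hu : uI I ≤ c) {R : ℕ}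
    (hR : 1 ≤ R) {a : ℝ} (ha : |a| ≤ 1 / 16) {lm : ℝ} (h0 : 0 ≤ lm) (h1 : lm ≤ Real.exp R) :
    lam w2 (gl lm R a I) ≤ Real.exp (EU a I + Bd2 c * Real.exp (-(R:ℝ))) := by
  obtain ⟨ν, h⟩ := law_exists2 I hI
  have := h.prob
  obtain ⟨B, hB⟩ := h.bdd
  have ha' : |a| ≤ 1 := by linarith
  have h4 := law_exp4_2 h
  have h6 := exp_up2 h ha
  set x := Real.exp (-(R:ℝ)) with hx
  have hx0 : 0 < x := Real.exp_pos _
  have hx1 : x ≤ 1 := Real.exp_le_one_iff.mpr (by simp)
  have hx2 : Real.exp (-(2 * (R:ℝ))) = x ^ 2 := by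
    rw [hx, ← Real.exp_nat_mul]; congr 1; push_cast; ring
  have hlx : lm * x ^ 2 ≤ x := by
    have h9 : Real.exp R * x = 1 := by rw [hx, ← Real.exp_add]; simp
    calc lm * x ^ 2 = (lm * x) * x := by ring
      _ ≤ (Real.exp R * x) * x := by gcongr
      _ = x := by rw [h9, one_mul]
  have i1 : Integrable (fun z : ℂ => Real.exp (2 * a * z.re)) ν := integrable_of_bdd hB (by fun_prop)
  have i2 : Integrable (fun z : ℂ => Real.exp (4 * ‖z‖)) ν := integrable_of_bdd hB (by fun_prop)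
  rw [lam_gl2 h]
  have h7 : ∫ z, glf lm R a z ∂ν ≤ ∫ z : ℂ, ((1 + x) ^ 2 * Real.exp (2 * a * z.re) +
      2 * x * Real.exp (4 * ‖z‖)) ∂ν := by
    refine integral_mono (integrable_of_bdd hB ?_) ((i1.const_mul _).add (i2.const_mul _)) fun z => ?_
    · unfold glf NK; fun_prop
    · have a1 := NK_sq_le (cl_small (R := R) ha) ha' z
      have a2 := ball_pow_le hR z
      rw [hx2] at a1 a2
      simp only [Pi.add_apply]
      unfold glf
      have a3 := mul_le_mul_of_nonneg_left a2 h0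
      have a4 : lm * (x ^ 2 * Real.exp (4 * ‖z‖)) ≤ x * Real.exp (4 * ‖z‖) := by
        rw [← mul_assoc]
        exact mul_le_mul_of_nonneg_right hlx (Real.exp_pos _).le
      have a5 : x ^ 2 * Real.exp (4 * ‖z‖) ≤ x * Real.exp (4 * ‖z‖) :=
        mul_le_mul_of_nonneg_right (by nlinarith) (Real.exp_pos _).le
      linarith
  rw [integral_add (i1.const_mul _) (i2.const_mul _), integral_const_mul, integral_const_mul] at h7
  have hEc := EU_ge hv ha
  have hD : CD (vI I) (uI I) ≤ CD c c := CD_mono hv hu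
  have hD0 := CD_pos c c
  have h2 : 1 ≤ Real.exp (EU a I) * Real.exp c := by
    rw [← Real.exp_add]; exact Real.one_le_exp (by linarith)
  calc ∫ z, glf lm R a z ∂ν ≤ (1 + x) ^ 2 * (∫ z : ℂ, Real.exp (2 * a * z.re) ∂ν) +
        2 * x * ∫ z : ℂ, Real.exp (4 * ‖z‖) ∂ν := h7
    _ ≤ (1 + x) ^ 2 * Real.exp (EU a I) + 2 * x * CD c c := by
      have := h4.trans hD
      gcongr
    _ ≤ (1 + x) ^ 2 * Real.exp (EU a I) + 2 * x * CD c c * (Real.exp (EU a I) * Real.exp c) := by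
      have h3 : 2 * x * CD c c * 1 ≤ 2 * x * CD c c * (Real.exp (EU a I) * Real.exp c) := by
        gcongr
      linarith
    _ = Real.exp (EU a I) * ((1 + x) ^ 2 + 2 * CD c c * Real.exp c * x) := by ring
    _ ≤ Real.exp (EU a I) * (Bd2 c * x + 1) := by
      refine mul_le_mul_of_nonneg_left ?_ (Real.exp_pos _).le
      unfold Bd2
      have hx3 : x ^ 2 ≤ x := by nlinarith
      nlinarith
    _ ≤ Real.exp (EU a I) * Real.exp (Bd2 c * x) :=
      mul_le_mul_of_nonneg_left (Real.add_one_le_exp _) (Real.exp_pos _).le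
    _ = _ := by rw [← Real.exp_add]

/-- threshold for the radii -/
def Rk (c : ℝ) (R : ℕ) : Prop := 1 ≤ R ∧ Real.exp (-(2 * (R:ℝ))) * (CD c c * Real.exp c) ≤ 1 / 2

lemma Rk_mono {c : ℝ} {R R' : ℕ} (h : Rk c R) (hR : R ≤ R') : Rk c R' := by
  refine ⟨h.1.trans hR, le_trans ?_ h.2⟩
  have h1 : (R:ℝ) ≤ R' := by exact_mod_cast hR
  have h2 := CD_pos c c
  exact mul_le_mul_of_nonneg_right (Real.exp_le_exp.mpr (by linarith)) (by positivity)

lemma Rk_ex (c : ℝ) : ∃ R, Rk c R := by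
  obtain ⟨n, hn⟩ := exists_nat_gt (2 * (CD c c * Real.exp c))
  refine ⟨n + 1, by omega, ?_⟩
  have h0 : 0 < CD c c * Real.exp c := by have := CD_pos c c; positivity
  have h1 : Real.exp (-(2 * ((n + 1 : ℕ):ℝ))) ≤ 1 / ((n:ℝ) + 1) := by
    rw [Real.exp_neg, ← one_div]
    refine one_div_le_one_div_of_le (by positivity) ?_
    have := Real.add_one_le_exp (2 * ((n + 1 : ℕ):ℝ))
    push_cast at this ⊢
    have : (0:ℝ) ≤ n := Nat.cast_nonneg n
    linarith
  refine (mul_le_mul_of_nonneg_right h1 h0.le).trans ?_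
  rw [div_mul_eq_mul_div, one_mul, div_le_iff₀ (by positivity)]
  linarith

lemma gl_low2 {c : ℝ} (hc0 : 0 ≤ c) (hI : ∀ p ∈ I, p.Prime ∧ 144 ≤ p) (hv : vI I ≤ c) (hu : uI I ≤ c)
    {R : ℕ} (hR : Rk c R) {a : ℝ} (ha : |a| ≤ 1 / 16) {lm : ℝ} (h0 : 0 ≤ lm) :
    Real.exp ((4 * a + a ^ 2) * vI I - 2 * |a| * uI I - 2 * Bd2 c * Real.exp (-(R:ℝ))) ≤
      lam w2 (gl lm R a I) := by
  obtain ⟨ν, h⟩ := law_exists2 I hI
  have := h.prob
  obtain ⟨B, hB⟩ := h.bdd
  have u0 := uI_nonneg I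
  have v0 := vI_nonneg I
  have ha' : |a| ≤ 1 := by linarith
  obtain ⟨ha1, ha2⟩ := abs_le.mp ha
  have h4 := law_exp4_2 h
  have h5 := h.expl a (by linarith)
  set x := Real.exp (-(R:ℝ)) with hx
  have hx0 : 0 < x := Real.exp_pos _
  have hR1 : (1:ℝ) ≤ R := by exact_mod_cast hR.1
  have hx12 : x ≤ 1 / 2 := by
    have : Real.exp (-(R:ℝ)) ≤ Real.exp (-1) := Real.exp_le_exp.mpr (by linarith)
    have h2 : Real.exp (-1) < 0.37 := by
      have := Real.exp_neg_one_lt_d9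
      linarith
    linarith
  have hx2 : Real.exp (-(2 * (R:ℝ))) = x ^ 2 := by
    rw [hx, ← Real.exp_nat_mul]; congr 1; push_cast; ring
  set E := (4 * a + a ^ 2) * vI I - 2 * |a| * uI I with hE
  have i1 : Integrable (fun z : ℂ => Real.exp (2 * a * z.re)) ν := integrable_of_bdd hB (by fun_prop)
  have i2 : Integrable (fun z : ℂ => Real.exp (4 * ‖z‖)) ν := integrable_of_bdd hB (by fun_prop)
  rw [lam_gl2 h]
  have h7 : ∫ z : ℂ, ((1 - x) ^ 2 * (Real.exp (2 * a * z.re) - x ^ 2 * Real.exp (4 * ‖z‖))) ∂ν ≤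
      ∫ z, glf lm R a z ∂ν := by
    refine integral_mono ((i1.sub (i2.const_mul _)).const_mul _) (integrable_of_bdd hB ?_) fun z => ?_
    · unfold glf NK; fun_prop
    · have a1 := NK_sq_ge (cl_small (R := R) ha) ha' z
      rw [hx2] at a1
      simp only
      unfold glf
      have a2 : 0 ≤ lm * (‖z‖ / R) ^ (2 * R) := by positivity
      linarith
  rw [integral_const_mul, integral_sub i1 (i2.const_mul _), integral_const_mul] at h7
  have hEc : -c ≤ E := by
    have e1 : -(1 / 2) ≤ 4 * a + a ^ 2 := by nlinarith [sq_nonneg a]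
    have e3 : 2 * |a| * uI I ≤ 1 / 2 * c := by nlinarith [abs_nonneg a]
    nlinarith
  have hD : CD (vI I) (uI I) ≤ CD c c := CD_mono hv hu
  have hD0 := CD_pos c c
  have h2 : 1 ≤ Real.exp E * Real.exp c := by
    rw [← Real.exp_add]; exact Real.one_le_exp (by linarith)
  set q := x ^ 2 * CD c c * Real.exp c with hq
  have hq0 : 0 ≤ q := by positivity
  have hq12 : q ≤ 1 / 2 := by
    have h8 := hR.2
    rw [hx2] at h8
    calc q = x ^ 2 * (CD c c * Real.exp c) := by rw [hq]; ring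
      _ ≤ 1 / 2 := h8
  have h8 : x ^ 2 * ∫ z : ℂ, Real.exp (4 * ‖z‖) ∂ν ≤ q * Real.exp E := by
    calc x ^ 2 * ∫ z : ℂ, Real.exp (4 * ‖z‖) ∂ν ≤ x ^ 2 * CD c c * 1 := by
          rw [mul_one]; exact mul_le_mul_of_nonneg_left (h4.trans hD) (by positivity)
      _ ≤ x ^ 2 * CD c c * (Real.exp E * Real.exp c) := by gcongr
      _ = q * Real.exp E := by rw [hq]; ring
  have h9 : Real.exp (-(2 * x)) ≤ 1 - x := one_sub_ge_exp hx0.le hx12
  have h10 : Real.exp (-(2 * q)) ≤ 1 - q := one_sub_ge_exp hq0 hq12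
  have h11 : 0 ≤ (1 - x) ^ 2 := sq_nonneg _
  have hqx : q ≤ x * (CD c c * Real.exp c) := by
    rw [hq]
    have : x ^ 2 ≤ x := by nlinarith
    have h12 : 0 ≤ CD c c * Real.exp c := by positivity
    nlinarith
  calc Real.exp (E - 2 * Bd2 c * x) ≤ Real.exp (-(2 * x)) ^ 2 * (Real.exp (-(2 * q)) * Real.exp E) := by
        rw [← Real.exp_nat_mul, ← Real.exp_add, ← Real.exp_add]
        apply Real.exp_le_exp.mpr
        unfold Bd2
        push_cast
        nlinarith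
    _ ≤ (1 - x) ^ 2 * ((1 - q) * Real.exp E) := by gcongr
    _ ≤ (1 - x) ^ 2 * ((∫ z : ℂ, Real.exp (2 * a * z.re) ∂ν) - x ^ 2 * ∫ z : ℂ, Real.exp (4 * ‖z‖) ∂ν) := by
        refine mul_le_mul_of_nonneg_left ?_ h11
        linarith
    _ ≤ _ := h7

end

end

end Pool.Agent.TH971.N4_W2
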